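import Pool.Agent.Helper72.PT.St

/-! PT, module Low -/

open Finset

namespace Pool.Helper29.PTLow

open Pool.HW Pool.PL Pool.PT

variable {α : Type} [DecidableEq α] (S : Sys α)

/-- the lists crossing `r` are prefix free -/
theorem CR_prefix {r : ℕ} {C C' : List α} (hC : C ∈ S.CR r) (hC' : C' ∈ S.CR r)
    (h : C <+: C') : C = C' := by
  obtain ⟨t, ht⟩ := h
  rcases List.eq_nil_or_concat t with h0 | ⟨t', x, h1⟩
  · rw [← ht, h0, List.append_nil]
  · exfalso
    have h2 := (S.mem_CR.1 hC').2.2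
    have h3 := (S.mem_CR.1 hC).2.1
    rw [← ht, h1, List.concat_eq_append, ← List.append_assoc, List.dropLast_concat,
      Sys.ht_append] at h2
    omega

theorem CR_eq {r : ℕ} {A C C' M : List α} (hC : C ∈ S.CR r) (hC' : C' ∈ S.CR r)
    (h : A ++ C <+: M) (h' : A ++ C' <+: M) : C = C' := by
  rcases List.prefix_or_prefix_of_prefix h h' with h1 | h1
  · exact CR_prefix S hC hC' ((List.prefix_append_right_inj A).1 h1)
  · exact (CR_prefix S hC' hC ((List.prefix_append_right_inj A).1 h1)).symm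

theorem mem_hts_sub {r : ℕ} {A A1 C C1 M : List α} (hM : ∀ p ∈ M, p ∈ S.P)
    (hC1 : C1 ∈ S.CR r) (h : A ++ C <+: M) (h1 : A1 ++ C1 <+: M) (hlt : S.ht A1 < S.ht A)
    (hr : S.ht A ≤ r) : S.ht A - S.ht A1 ∈ S.hts C1 := by
  have hA : A <+: M := (List.prefix_append A C).trans h
  have hA1 : A1 <+: M := (List.prefix_append A1 C1).trans h1
  have hc := (S.mem_CR.1 hC1).2.1
  have h2 : A <+: A1 ++ C1 := by
    refine S.prefix_of_ht_le hM hA h1 ?_
    rw [Sys.ht_append]; omega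
  have h3 : A1 <+: A := S.prefix_of_ht_le hM hA1 hA (by omega)
  obtain ⟨K, hK⟩ := h3
  rw [← hK] at h2
  have h4 : K <+: C1 := (List.prefix_append_right_inj A1).1 h2
  rw [Sys.mem_hts]
  refine ⟨K, h4, ?_, ?_⟩
  · rintro rfl
    rw [List.append_nil] at hK
    rw [hK] at hlt
    omega
  · rw [← hK, Sys.ht_append]; omega

open Classical in
theorem card_le (r k : ℕ) (M M' : List α) (hM : ∀ p ∈ M, p ∈ S.P) (hM' : ∀ p ∈ M', p ∈ S.P) :
    ((((range (r + 1)).sigma (fun h => S.LH h ×ˢ S.LH h)) ×ˢ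
      ((S.CR r ×ˢ S.CR r).filter (fun q => S.ncr r q.1 q.2 < k))).filter
      (fun i => i.1.2.1 ++ i.2.1 <+: M ∧ i.1.2.2 ++ i.2.2 <+: M')).card ≤ k := by
  set F := ((((range (r + 1)).sigma (fun h => S.LH h ×ˢ S.LH h)) ×ˢ
      ((S.CR r ×ˢ S.CR r).filter (fun q => S.ncr r q.1 q.2 < k))).filter
      (fun i => i.1.2.1 ++ i.2.1 <+: M ∧ i.1.2.2 ++ i.2.2 <+: M')) with hF
  have hmem : ∀ i ∈ F, (i.1.1 ≤ r ∧ (∀ p ∈ i.1.2.1, p ∈ S.P) ∧ S.ht i.1.2.1 = i.1.1 ∧
      (∀ p ∈ i.1.2.2, p ∈ S.P) ∧ S.ht i.1.2.2 = i.1.1) ∧ i.2.1 ∈ S.CR r ∧ i.2.2 ∈ S.CR r ∧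
      S.ncr r i.2.1 i.2.2 < k ∧ i.1.2.1 ++ i.2.1 <+: M ∧ i.1.2.2 ++ i.2.2 <+: M' := by
    intro i hi
    rw [hF, mem_filter, mem_product, mem_sigma, mem_range, mem_product, S.mem_LH, S.mem_LH,
      mem_filter, mem_product] at hi
    exact ⟨⟨by omega, hi.1.1.2.1.1, hi.1.1.2.1.2, hi.1.1.2.2.1, hi.1.1.2.2.2⟩, hi.1.2.1.1,
      hi.1.2.1.2, hi.1.2.2, hi.2.1, hi.2.2⟩
  rcases F.eq_empty_or_nonempty with h0 | h0
  · rw [h0]; simp
  obtain ⟨i1, hi1, hmin⟩ := F.exists_min_image (fun i => i.1.1) h0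
  obtain ⟨⟨a1, a2, a3, a4, a5⟩, b1, b2, b3, b4, b5⟩ := hmem i1 hi1
  have hcard : F.card ≤ (insert 0 ((S.hts i1.2.1 ∩ S.hts i1.2.2).filter (· ≤ r))).card := by
    refine Finset.card_le_card_of_injOn (fun i => i.1.1 - i1.1.1) ?_ ?_
    · intro i hi
      obtain ⟨⟨c1, c2, c3, c4, c5⟩, d1, d2, d3, d4, d5⟩ := hmem i hi
      have hm := hmin i hi
      rw [Finset.mem_coe, mem_insert, mem_filter, mem_inter]
      by_cases he : i.1.1 = i1.1.1
      · left; simp only; omega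
      · right
        have e1 := mem_hts_sub S hM b1 d4 b4 (by omega) (by omega)
        have e2 := mem_hts_sub S hM' b2 d5 b5 (by omega) (by omega)
        rw [c3, a3] at e1
        rw [c5, a5] at e2
        exact ⟨⟨e1, e2⟩, by simp only; omega⟩
    · intro i hi i' hi' he
      rw [Finset.mem_coe] at hi hi'
      obtain ⟨⟨c1, c2, c3, c4, c5⟩, d1, d2, d3, d4, d5⟩ := hmem i hi
      obtain ⟨⟨c1', c2', c3', c4', c5'⟩, d1', d2', d3', d4', d5'⟩ := hmem i' hi'
      have hm := hmin i hi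
      have hm' := hmin i' hi'
      simp only at he hm hm'
      have hh : i.1.1 = i'.1.1 := by omega
      have hA : i.1.2.1 = i'.1.2.1 := S.prefix_eq_of_ht hM
        ((List.prefix_append _ _).trans d4) ((List.prefix_append _ _).trans d4')
        (by rw [c3, c3', hh])
      have hA' : i.1.2.2 = i'.1.2.2 := S.prefix_eq_of_ht hM'
        ((List.prefix_append _ _).trans d5) ((List.prefix_append _ _).trans d5')
        (by rw [c5, c5', hh])
      have hC : i.2.1 = i'.2.1 := by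
        rw [← hA] at d4'
        exact CR_eq S d1 d1' d4 d4'
      have hC' : i.2.2 = i'.2.2 := by
        rw [← hA'] at d5'
        exact CR_eq S d2 d2' d5 d5'
      obtain ⟨⟨h, A, A'⟩, C, C'⟩ := i
      obtain ⟨⟨h', B, B'⟩, D, D'⟩ := i'
      simp only at hh hA hA' hC hC'
      subst hh; subst hA; subst hA'; subst hC; subst hC'
      rfl
  have h2 : (insert 0 ((S.hts i1.2.1 ∩ S.hts i1.2.2).filter (· ≤ r))).card ≤
      ((S.hts i1.2.1 ∩ S.hts i1.2.2).filter (· ≤ r)).card + 1 := card_insert_le _ _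
  have h3 : ((S.hts i1.2.1 ∩ S.hts i1.2.2).filter (· ≤ r)).card < k := b3
  omega

theorem low (hE : StE) : StLow := by
  classical
  intro α _ S r k
  have h := hE α S.P S.w S.w_nonneg S.w_sum
    ((Σ _ : ℕ, List α × List α) × (List α × List α))
    (((range (r + 1)).sigma (fun h => S.LH h ×ˢ S.LH h)) ×ˢ
      ((S.CR r ×ˢ S.CR r).filter (fun q => S.ncr r q.1 q.2 < k)))
    (fun i => i.1.2.1 ++ i.2.1) (fun i => i.1.2.2 ++ i.2.2) (fun _ => 1) k
    (fun _ _ => zero_le_one) ?_ ?_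
  · refine le_trans (le_of_eq ?_) h
    rw [Finset.sum_product, Finset.sum_sigma, Sys.V, Finset.sum_mul]
    refine Finset.sum_congr rfl fun i _ => ?_
    rw [sq, Sys.u, Finset.sum_mul_sum, ← Finset.sum_product', Finset.sum_mul]
    refine Finset.sum_congr rfl fun p _ => ?_
    rw [Finset.mul_sum]
    refine Finset.sum_congr rfl fun q _ => ?_
    have e1 : ∀ L : List α, (L.map S.w).prod = S.wt L := fun L => rfl
    simp only [e1, Sys.wt_append]
    ring
  · intro i hi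
    rw [mem_product, mem_sigma, mem_product, S.mem_LH, S.mem_LH, mem_filter, mem_product,
      S.mem_CR, S.mem_CR] at hi
    refine ⟨fun p hp => ?_, fun p hp => ?_⟩
    · rcases List.mem_append.1 hp with h1 | h1
      · exact hi.1.2.1.1 p h1
      · exact hi.2.1.1.1 p h1
    · rcases List.mem_append.1 hp with h1 | h1
      · exact hi.1.2.2.1 p h1
      · exact hi.2.1.2.1 p h1
  · intro M M' hM hM'
    rw [Finset.sum_const, nsmul_eq_mul, mul_one]
    have := card_le S r k M M' hM hM'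
    exact_mod_cast this

end Pool.Helper29.PTLow
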